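import Pool.Agent.N550.RF.Stm
import Pool.Agent.N550.KH.All

/-!
# Project RF: the assembly

The theorem for the homeomorphisms onto the total spaces of 3-sphere bundles over the circle, from
the statements about the single steps.
-/

set_option autoImplicit false

open Set Filter Topology Metric Function MeasureTheory
open scoped Manifold ContDiff

noncomputable section

namespace Pool.Agent.N550.RF.Finr

open Pool.Agent.Y522 Pool.Agent.N550.KH Pool.Agent.N550.SH Pool.Agent.N550.CQ Pool.Agent.N550.RF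

theorem cont {N : Type} [TopologicalSpace N] [ChartedSpace (E 4) N] {ρ : Equiv.Perm (Sp 3)}
    {P : ℝ × Sp 3 → N} (hP : IsTorus ρ P) : Continuous P :=
  continuous_iff_continuousAt.2 fun a => (hP.ld a).contMDiffAt.continuousAt

/-- the set of the parameters of the fibres which miss a closed set is open -/
theorem open_miss {N : Type} [TopologicalSpace N] [ChartedSpace (E 4) N] {ρ : Equiv.Perm (Sp 3)}
    {P : ℝ × Sp 3 → N} (hP : IsTorus ρ P) {F : Set N} (hF : IsClosed F) :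
    IsOpen {t : ℝ | ∀ u, P (t, u) ∉ F} := by
  have h1 : IsClosed (Prod.fst '' (P ⁻¹' F)) :=
    isClosedMap_fst_of_compactSpace _ (hF.preimage (cont hP))
  have h2 : {t : ℝ | ∀ u, P (t, u) ∉ F} = (Prod.fst '' (P ⁻¹' F))ᶜ := by
    ext t
    constructor
    · rintro h ⟨⟨t', u⟩, hm, rfl⟩
      exact h u hm
    · intro h u hm
      exact h ⟨(t, u), hm, rfl⟩
  rw [h2]
  exact h1.isOpen_compl

theorem main : S_LDK → S_RKC → S_TOR → S_TNULL → S_RKM → S_FINR := by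
  intro hLDK hRKC hTOR hTNULL hRKM M N _ _ _ _ _ _ _ _ _ ρ P hP f T hB hT hrk
  haveI : CompactSpace N := f.compactSpace
  haveI : SecondCountableTopology M := ChartedSpace.secondCountable_of_sigmaCompact (E 4) M
  -- the closed set over which nothing is known
  have hZ : IsClosed {x | x ∈ KH.Bad 4 f ∨ rk 4 f x < 3} := hRKC 3 M N f
  -- the null set
  have hN : NullH 4 (f '' KH.Bad 4 f ∪ f '' {x | x ∉ KH.Bad 4 f ∧ rk 4 f x = 0}) := by
    intro h hi hld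
    rw [preimage_union]
    exact measure_union_null (hB h hi hld) (hRKM 4 M N f f.continuous h hi hld)
  -- a good fibre
  have hex : ∃ t₀ ∈ T, ∀ u, P (t₀, u) ∉
      f '' KH.Bad 4 f ∪ f '' {x | x ∉ KH.Bad 4 f ∧ rk 4 f x = 0} := by
    by_contra hcon
    push Not at hcon
    apply hT
    refine measure_mono_null ?_ (hTNULL N ρ P hP _ hN)
    intro t ht
    exact hcon t ht
  obtain ⟨t₀, ht₀, hu⟩ := hex
  have hmiss : t₀ ∈ {t : ℝ | ∀ u, P (t, u) ∉ f '' {x | x ∈ KH.Bad 4 f ∨ rk 4 f x < 3}} := by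
    rintro u ⟨x, hx, hxu⟩
    by_cases hb : x ∈ KH.Bad 4 f
    · exact hu u (Or.inl ⟨x, hb, hxu⟩)
    · have h3 : rk 4 f x < 3 := hx.resolve_left hb
      by_cases h0 : rk 4 f x = 0
      · exact hu u (Or.inr ⟨x, ⟨hb, h0⟩, hxu⟩)
      · exact hrk x hb (by omega) t₀ ht₀ u hxu
  have hcl : IsClosed (f '' {x | x ∈ KH.Bad 4 f ∨ rk 4 f x < 3}) := f.isClosedMap _ hZ
  obtain ⟨δ, hδ, hball⟩ := Metric.isOpen_iff.1 (open_miss hP hcl) t₀ hmiss
  obtain ⟨ε, hε, hε2, hεδ⟩ : ∃ ε : ℝ, 0 < ε ∧ ε < 1 / 2 ∧ ε < δ :=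
    ⟨min (δ / 2) (1 / 4), by positivity,
      lt_of_le_of_lt (min_le_right _ _) (by norm_num),
      lt_of_le_of_lt (min_le_left _ _) (by linarith)⟩
  have hKc : IsCompact (P '' (Icc (t₀ - ε) (t₀ + ε) ×ˢ univ)) :=
    (isCompact_Icc.prod isCompact_univ).image (cont hP)
  have hdis : Disjoint (f '' {x | x ∈ KH.Bad 4 f ∨ rk 4 f x < 3})
      (P '' (Icc (t₀ - ε) (t₀ + ε) ×ˢ univ)) := by
    rw [Set.disjoint_left]
    rintro y hy ⟨⟨t, u⟩, ⟨ht, -⟩, rfl⟩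
    refine hball ?_ u hy
    rw [Metric.mem_ball, Real.dist_eq, abs_lt]
    have ht1 : t₀ - ε ≤ t := ht.1
    have ht2 : t ≤ t₀ + ε := ht.2
    constructor <;> linarith
  obtain ⟨f₁, hf₁n, hf₁l⟩ := hLDK 3 M N f {x | x ∈ KH.Bad 4 f ∨ rk 4 f x < 3}
    (P '' (Icc (t₀ - ε) (t₀ + ε) ×ˢ univ)) hB hZ (fun x hx => Or.inl hx)
    (fun x hx => not_lt.1 fun h => hx (Or.inr h)) hKc.isClosed hdis
  obtain ⟨l, c, hl, hlld, hlK, hc, hcld, hcr⟩ := hTOR N ρ P hP t₀ ε hε hε2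
  obtain ⟨f₂, hf₂n, hf₂l⟩ := KH.one 3 M N f₁ l (P '' (Icc (t₀ - ε) (t₀ + ε) ×ˢ univ))
    (by norm_num) hf₁n hl hlld hlK hf₁l
  obtain ⟨c', hc', hc'ld, hc'r⟩ := KH.Cell.main 4 M N f₂ c hf₂n hc hcld
  haveI : Nonempty (Sp 3) := (NormedSpace.sphere_nonempty.2 zero_le_one).to_subtype
  refine KH.asm 4 M N (f₂ ⁻¹' (P '' (Icc (t₀ - ε) (t₀ + ε) ×ˢ univ) ∪
        l '' {z | vp 1 3 z = 0 ∧ ‖up 1 3 z‖ ≤ 1})) _ c' c f₂ (by norm_num) ?_ hc' hc'ld ?_ hc hcld
        hcr (fun x hx => hf₂l x hx) f₂.injective.injOn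
        (image_preimage_eq _ f₂.surjective)
  · obtain ⟨u⟩ := (inferInstance : Nonempty (Sp 3))
    obtain ⟨x, hx⟩ := f₂.surjective (P (t₀, u))
    refine ⟨x, Or.inl ?_⟩
    rw [hx]
    exact ⟨(t₀, u), ⟨⟨by linarith, by linarith⟩, mem_univ _⟩, rfl⟩
  · rw [hc'r, hcr, preimage_compl]

end Pool.Agent.N550.RF.Finr
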