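import Pool.Agent.N550.RF.Stm
import Pool.Agent.N550.CQ.CellQ
import Pool.Agent.N550.CQ.Cok

/-!
# Project RF: corank-one homeomorphisms become local diffeomorphisms over a compact set (helper527)

The first part of the proof of `Pool.Agent.N550.CQ.CellQ.main` (helper878).
-/

set_option autoImplicit false

open Set Filter Topology Metric Function MeasureTheory
open scoped Manifold ContDiff

noncomputable section

namespace Pool.Agent.N550.RF.Ldk

open Pool.Agent.Y522 Pool.Agent.N550.KH Pool.Agent.N550.CQ Pool.Agent.N550.CQ.CellQ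

theorem main_of (hCOK : S_COK) : S_LDK := by
  classical
  intro m M N _ _ _ _ _ _ _ _ _ _ f Z X hNull hZ hBad hrk hXc hdis
  -- the open submanifolds
  have hfZ : IsClosed (f '' Z) := (f.isClosed_image).2 hZ
  have hcZ : ∀ x ∈ Z, f x ∉ X := fun x hx => disjoint_left.1 hdis ⟨x, hx, rfl⟩
  let M0 : TopologicalSpace.Opens M := ⟨Zᶜ, hZ.isOpen_compl⟩
  let N0 : TopologicalSpace.Opens N := ⟨(f '' Z)ᶜ, hfZ.isOpen_compl⟩
  have hM0 : ∀ x : M, x ∈ M0 ↔ x ∉ Z := fun x => Iff.rfl
  have hN0 : ∀ y : N, y ∈ N0 ↔ y ∉ f '' Z := fun y => Iff.rfl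
  have hiff : ∀ x : M, x ∈ M0 ↔ f x ∈ N0 := by
    intro x
    rw [hM0, hN0, f.injective.mem_set_image]
  let f0 : M0 ≃ₜ N0 := f.subtype hiff
  have h0 : ∀ x : M0, f x = f0 x := fun x => rfl
  have hsm : ∀ x : M, x ∉ Z → ContMDiffAt (𝓡 (m + 1)) (𝓡 (m + 1)) ∞ f x := by
    intro x hx
    have h1 : x ∉ KH.Bad (m + 1) f := fun h => hx (hBad h)
    have h2 : ∀ᶠ y in 𝓝 x, ContMDiffAt (𝓡 (m + 1)) (𝓡 (m + 1)) ∞ f y := not_not.1 h1
    exact h2.self_of_nhds
  have hsm0 : ContMDiff (𝓡 (m + 1)) (𝓡 (m + 1)) ∞ f0 := fun x =>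
    restr_smooth M0 N0 f f0 h0 x f0.continuous.continuousAt (hsm x x.2)
  have hrk0 : ∀ x : M0, m ≤ rk (m + 1) f0 x := fun x =>
    (hrk x x.2).trans (rk_restr M0 N0 f f0 h0 x (hsm x x.2) (hsm0 x))
  -- the compact set
  have hX0 : IsCompact {x : M0 | f x ∈ X} := by
    rw [Subtype.isCompact_iff]
    have h1 : (Subtype.val '' {x : M0 | f x ∈ X} : Set M) = f ⁻¹' X := by
      ext x
      constructor
      · rintro ⟨y, hy, rfl⟩
        exact hy
      · intro hx
        have hxZ : x ∉ Z := fun h => hcZ x h hx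
        exact ⟨⟨x, hxZ⟩, hx, rfl⟩
    rw [h1]
    exact (hXc.preimage f.continuous).isCompact
  have hlc : LocallyCompactSpace M0 := ChartedSpace.locallyCompactSpace (E (m + 1)) M0
  obtain ⟨K, hK, hXK⟩ := exists_compact_superset hX0
  let O : Set (M0 × N0) := {p | p.1 ∈ interior K ∨ (p.2 : N) ∉ X}
  have hO : IsOpen O := by
    refine IsOpen.union (isOpen_interior.preimage continuous_fst) ?_
    exact hXc.isOpen_compl.preimage (continuous_subtype_val.comp continuous_snd)
  have hgr : ∀ x, (x, f0 x) ∈ O := by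
    intro x
    by_cases hx : f x ∈ X
    · exact Or.inl (hXK hx)
    · exact Or.inr hx
  obtain ⟨f', C, hC, hf'b, hf's, hf'K, hf'O, hf'C⟩ :=
    hCOK m M0 N0 f0 K O hsm0 hK (fun x _ => hrk0 x) hO hgr
  -- the new homeomorphism
  let fh : M → N := fun x => if h : x ∈ M0 then (f' ⟨x, h⟩ : N) else f x
  have hfh0 : ∀ x : M0, fh x = f' x := fun x => dif_pos x.2
  have hfhZ : ∀ x, x ∈ Z → fh x = f x := fun x hx => dif_neg (fun h => h hx)
  have hCc : IsClosed (Subtype.val '' C : Set M) :=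
    (hC.image continuous_subtype_val).isClosed
  have hfhC : ∀ x, x ∉ (Subtype.val '' C : Set M) → fh x = f x := by
    intro x hx
    by_cases hxZ : x ∈ Z
    · exact hfhZ x hxZ
    · have h1 : (⟨x, hxZ⟩ : M0) ∉ C := fun h => hx ⟨_, h, rfl⟩
      have h2 := hfh0 ⟨x, hxZ⟩
      rw [hf'C _ h1] at h2
      exact h2
  have hZC : ∀ x, x ∈ Z → fh =ᶠ[𝓝 x] f := by
    intro x hx
    have h1 : x ∉ (Subtype.val '' C : Set M) := by
      rintro ⟨y, -, rfl⟩
      exact y.2 hx
    filter_upwards [hCc.isOpen_compl.mem_nhds h1] with y hy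
    exact hfhC y hy
  have hsmh : ∀ x, x ∉ Z → ContMDiffAt (𝓡 (m + 1)) (𝓡 (m + 1)) ∞ fh x := fun x hx =>
    smooth_of_restr M0 N0 fh f' hfh0 ⟨x, hx⟩ (hf's _)
  have hcont : Continuous fh := by
    rw [continuous_iff_continuousAt]
    intro x
    by_cases hx : x ∈ Z
    · exact (f.continuous.continuousAt).congr (hZC x hx).symm
    · exact (hsmh x hx).continuousAt
  have hbij : Bijective fh := by
    constructor
    · intro x y hxy
      by_cases hx : x ∈ Z
      · by_cases hy : y ∈ Z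
        · rw [hfhZ x hx, hfhZ y hy] at hxy
          exact f.injective hxy
        · exfalso
          have h1 := hfh0 ⟨y, hy⟩
          have h2 : ((f' ⟨y, hy⟩ : N0) : N) ∉ f '' Z := (f' ⟨y, hy⟩).2
          apply h2
          rw [← h1]
          show fh y ∈ f '' Z
          rw [← hxy, hfhZ x hx]
          exact ⟨x, hx, rfl⟩
      · by_cases hy : y ∈ Z
        · exfalso
          have h1 := hfh0 ⟨x, hx⟩
          have h2 : ((f' ⟨x, hx⟩ : N0) : N) ∉ f '' Z := (f' ⟨x, hx⟩).2
          apply h2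
          rw [← h1]
          show fh x ∈ f '' Z
          rw [hxy, hfhZ y hy]
          exact ⟨y, hy, rfl⟩
        · have h1 := hfh0 ⟨x, hx⟩
          have h2 := hfh0 ⟨y, hy⟩
          have h3 : f' ⟨x, hx⟩ = f' ⟨y, hy⟩ := by
            apply Subtype.ext
            rw [← h1, ← h2]
            exact hxy
          exact congrArg Subtype.val (hf'b.1 h3)
    · intro y
      by_cases hy : y ∈ f '' Z
      · obtain ⟨x, hx, rfl⟩ := hy
        exact ⟨x, hfhZ x hx⟩
      · obtain ⟨x, hx⟩ := hf'b.2 ⟨y, hy⟩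
        refine ⟨x, ?_⟩
        rw [hfh0, hx]
  let F : M ≃ₜ N := Continuous.homeoOfEquivCompactToT2 (f := Equiv.ofBijective fh hbij) hcont
  have hF : ∀ x, F x = fh x := fun _ => rfl
  have hFf : (F : M → N) = fh := rfl
  -- the bad set
  have hBZ : ∀ x ∈ KH.Bad (m + 1) F, x ∈ Z ∧ x ∈ KH.Bad (m + 1) f := by
    intro x hx
    have hxZ : x ∈ Z := by
      by_contra hxZ
      apply hx
      filter_upwards [hZ.isOpen_compl.mem_nhds hxZ] with y hy
      exact hsmh y hy
    refine ⟨hxZ, ?_⟩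
    intro hsmx
    apply hx
    obtain ⟨s, hs, hso, hxs⟩ := mem_nhds_iff.1 (hZC x hxZ)
    filter_upwards [hsmx, hso.mem_nhds hxs] with y hy hys
    refine hy.congr_of_eventuallyEq ?_
    filter_upwards [hso.mem_nhds hys] with w hw
    exact hs hw
  have hNullF : NullH (m + 1) (F '' KH.Bad (m + 1) F) := by
    intro h hi hl
    refine measure_mono_null ?_ (hNull h hi hl)
    refine preimage_mono ?_
    rintro _ ⟨x, hx, rfl⟩
    obtain ⟨h1, h2⟩ := hBZ x hx
    refine ⟨x, h2, ?_⟩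
    rw [hF, hfhZ x h1]
  -- local diffeomorphism over `X`
  refine ⟨F, hNullF, ?_⟩
  intro x hx
  have hxZ : x ∉ Z := by
    intro h
    apply hcZ x h
    rw [← hfhZ x h, ← hF]
    exact hx
  have h1 := hf'O ⟨x, hxZ⟩
  have h2 : ((f' ⟨x, hxZ⟩ : N0) : N) ∈ X := by
    rw [← hfh0]
    exact hx
  rcases h1 with h1 | h1
  · exact ld_of_restr M0 N0 fh f' hfh0 ⟨x, hxZ⟩ (hf'K _ (interior_subset h1))
  · exact absurd h2 h1

/-- **Corank-one homeomorphisms become local diffeomorphisms over a compact set.** -/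
theorem main : S_LDK := main_of Cok.main

end Pool.Agent.N550.RF.Ldk
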