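import Pool.Agent.N550.RF.Stm
import Pool.Agent.N550.SH.Two
import Pool.Agent.Y522.Tools

/-!
# Project RF: the set of the bad points is closed (helper2 for helper550)
-/

set_option autoImplicit false

open Set Filter Topology Metric Function MeasureTheory
open scoped Manifold ContDiff

noncomputable section

namespace Pool.Agent.N550.RF.Rkc

open Pool.Agent.Y522 Pool.Agent.N550.KH Pool.Agent.N550.SH Pool.Agent.N550.CQ
  Pool.Agent.N550.RF

/-- the rank is lower semicontinuous -/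
theorem rank_open {n m : ℕ} (A : E n →L[ℝ] E n)
    (h : m ≤ Module.finrank ℝ (LinearMap.range A.toLinearMap)) :
    ∀ᶠ B in 𝓝 A, m ≤ Module.finrank ℝ (LinearMap.range (B : E n →L[ℝ] E n).toLinearMap) := by
  have h1 : ∀ B : E n →L[ℝ] E n, ((m : ℕ) : Cardinal) ≤ (B : E n →ₗ[ℝ] E n).rank ↔
      m ≤ Module.finrank ℝ (LinearMap.range B.toLinearMap) := by
    intro B
    unfold LinearMap.rank
    rw [← Module.finrank_eq_rank, Nat.cast_le]
  filter_upwards [(isOpen_setOfPred_nat_le_rank (𝕜 := ℝ) (E := E n) (F := E n) m).mem_nhds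
    ((h1 A).2 h)] with B hB
  exact (h1 B).1 hB

theorem finrank_comp_le {n : ℕ} (A T B : E n →L[ℝ] E n) :
    Module.finrank ℝ (LinearMap.range ((A.comp T).comp B).toLinearMap) ≤
      Module.finrank ℝ (LinearMap.range T.toLinearMap) := by
  have h1 : LinearMap.range ((A.comp T).comp B).toLinearMap ≤
      (LinearMap.range T.toLinearMap).map A.toLinearMap := by
    rintro _ ⟨u, rfl⟩
    exact ⟨T (B u), ⟨B u, rfl⟩, rfl⟩
  exact (Submodule.finrank_mono h1).trans (Submodule.finrank_map_le _ _)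

theorem finrank_comp_eq {n : ℕ} (A T B : E n →L[ℝ] E n) (hA : Injective A) (hB : Surjective B) :
    Module.finrank ℝ (LinearMap.range T.toLinearMap) ≤
      Module.finrank ℝ (LinearMap.range ((A.comp T).comp B).toLinearMap) := by
  have h1 : (LinearMap.range T.toLinearMap).map A.toLinearMap ≤
      LinearMap.range ((A.comp T).comp B).toLinearMap := by
    rintro _ ⟨_, ⟨u, rfl⟩, rfl⟩
    obtain ⟨v, rfl⟩ := hB u
    exact ⟨v, rfl⟩
  refine le_trans (le_of_eq ?_) (Submodule.finrank_mono h1)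
  exact (Submodule.equivMapOfInjective A.toLinearMap hA (LinearMap.range T.toLinearMap)).finrank_eq

section

variable {n : ℕ} {M N : Type} [TopologicalSpace M] [ChartedSpace (E n) M] [IsManifold (𝓡 n) ∞ M]
  [TopologicalSpace N] [ChartedSpace (E n) N] [IsManifold (𝓡 n) ∞ N]

/-- the map in the charts at `x` and `f x` -/
def loc (f : M → N) (x : M) : E n → E n :=
  fun z => chartAt (E n) (f x) (f ((chartAt (E n) x).symm z))

theorem loc_deriv (f : M → N) (x y : M) (hy : y ∈ (chartAt (E n) x).source)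
    (hfy : f y ∈ (chartAt (E n) (f x)).source) (hf : ContMDiffAt (𝓡 n) (𝓡 n) ∞ f y) :
    ∃ A B : E n →L[ℝ] E n, Injective A ∧ Surjective B ∧
      fderiv ℝ (loc f x) (chartAt (E n) x y) =
        (A.comp (mfderiv (𝓡 n) (𝓡 n) f y : E n →L[ℝ] E n)).comp B := by
  set χ := chartAt (E n) x with hχ
  set ψ := chartAt (E n) (f x) with hψ
  have e1 : χ.symm (χ y) = y := χ.left_inv hy
  have l1 : LD n χ.symm (χ y) := ld_chart_symm' x _ (χ.map_source hy)
  have l2 : LD n ψ (f y) := ld_chart' (f x) _ hfy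
  have d1 : MDifferentiableAt (𝓡 n) (𝓡 n) χ.symm (χ y) := l1.mdifferentiableAt
  have d2 : MDifferentiableAt (𝓡 n) (𝓡 n) ψ (f y) := l2.mdifferentiableAt
  have df : MDifferentiableAt (𝓡 n) (𝓡 n) f y := hf.mdifferentiableAt (by simp)
  have df' : MDifferentiableAt (𝓡 n) (𝓡 n) f (χ.symm (χ y)) := by rw [e1]; exact df
  have d2' : MDifferentiableAt (𝓡 n) (𝓡 n) ψ ((f ∘ χ.symm) (χ y)) := by
    show MDifferentiableAt (𝓡 n) (𝓡 n) ψ (f (χ.symm (χ y)))
    rw [e1]; exact d2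
  have c1 : mfderiv (𝓡 n) (𝓡 n) (ψ ∘ (f ∘ χ.symm)) (χ y) =
      (mfderiv (𝓡 n) (𝓡 n) ψ ((f ∘ χ.symm) (χ y))).comp
        (mfderiv (𝓡 n) (𝓡 n) (f ∘ χ.symm) (χ y)) := mfderiv_comp _ d2' (df'.comp _ d1)
  have c2 : mfderiv (𝓡 n) (𝓡 n) (f ∘ χ.symm) (χ y) =
      (mfderiv (𝓡 n) (𝓡 n) f (χ.symm (χ y))).comp
        (mfderiv (𝓡 n) (𝓡 n) χ.symm (χ y)) := mfderiv_comp _ df' d1
  have g1 : ∀ z z' : M, z = z' → (mfderiv (𝓡 n) (𝓡 n) f z : E n →L[ℝ] E n) =
      (mfderiv (𝓡 n) (𝓡 n) f z' : E n →L[ℝ] E n) := by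
    rintro z _ rfl
    rfl
  refine ⟨(mfderiv (𝓡 n) (𝓡 n) ψ ((f ∘ χ.symm) (χ y)) : E n →L[ℝ] E n),
    (mfderiv (𝓡 n) (𝓡 n) χ.symm (χ y) : E n →L[ℝ] E n), ?_, ?_, ?_⟩
  · have l2' : LD n ψ ((f ∘ χ.symm) (χ y)) := by
      show LD n ψ (f (χ.symm (χ y)))
      rw [e1]; exact l2
    exact l2'.mfderiv_injective
  · have h7 : ∀ V' : E n →L[ℝ] E n, Injective V' → Surjective V' := fun V' hV' =>
      (LinearMap.injective_iff_surjective (f := V'.toLinearMap)).1 hV'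
    exact h7 _ l1.mfderiv_injective
  · have h1 : fderiv ℝ (loc f x) (χ y) =
        (mfderiv (𝓡 n) (𝓡 n) (ψ ∘ (f ∘ χ.symm)) (χ y) : E n →L[ℝ] E n) :=
      (mfderiv_eq_fderiv (f := loc f x) (x := χ y)).symm
    rw [h1]
    have h2 : (mfderiv (𝓡 n) (𝓡 n) (f ∘ χ.symm) (χ y) : E n →L[ℝ] E n) =
        (mfderiv (𝓡 n) (𝓡 n) f y : E n →L[ℝ] E n).comp
          (mfderiv (𝓡 n) (𝓡 n) χ.symm (χ y) : E n →L[ℝ] E n) := by
      rw [← g1 _ _ e1]
      exact c2
    refine c1.trans ?_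
    show (mfderiv (𝓡 n) (𝓡 n) ψ ((f ∘ χ.symm) (χ y)) : E n →L[ℝ] E n).comp
      (mfderiv (𝓡 n) (𝓡 n) (f ∘ χ.symm) (χ y) : E n →L[ℝ] E n) = _
    rw [h2]
    rfl

end

theorem main : S_RKC := by
  intro m M N _ _ _ _ _ _ f
  rw [← isOpen_compl_iff, isOpen_iff_mem_nhds]
  intro x hx
  have hx1 : x ∉ KH.Bad (m + 1) f := fun h => hx (Or.inl h)
  have hx2 : m ≤ rk (m + 1) f x := not_lt.1 fun h => hx (Or.inr h)
  have hsm : ∀ᶠ y in 𝓝 x, ContMDiffAt (𝓡 (m + 1)) (𝓡 (m + 1)) ∞ f y := not_not.1 hx1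
  have hfc : ContinuousAt f x := hsm.self_of_nhds.continuousAt
  set χ := chartAt (E (m + 1)) x with hχ
  set ψ := chartAt (E (m + 1)) (f x) with hψ
  have hxs : x ∈ χ.source := mem_chart_source _ x
  have hfs : f x ∈ ψ.source := mem_chart_source _ (f x)
  have n1 : ∀ᶠ y in 𝓝 x, y ∈ χ.source := χ.open_source.mem_nhds hxs
  have n2 : ∀ᶠ y in 𝓝 x, f y ∈ ψ.source := hfc (ψ.open_source.mem_nhds hfs)
  have n3 := hsm.eventually_nhds
  -- the local expression is smooth near `χ x`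
  have hcs : ContinuousAt χ.symm (χ x) := χ.continuousAt_symm (χ.map_source hxs)
  have e0 : χ.symm (χ x) = x := χ.left_inv hxs
  have hF : ContDiffAt ℝ ∞ (loc f x) (χ x) := by
    rw [← contMDiffAt_iff_contDiffAt]
    have l1 : LD (m + 1) χ.symm (χ x) := ld_chart_symm' x _ (χ.map_source hxs)
    have l2 : LD (m + 1) ψ (f x) := ld_chart' (f x) _ hfs
    have h1 : ContMDiffAt (𝓡 (m + 1)) (𝓡 (m + 1)) ∞ f (χ.symm (χ x)) := by
      rw [e0]; exact hsm.self_of_nhds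
    have h2 : ContMDiffAt (𝓡 (m + 1)) (𝓡 (m + 1)) ∞ ψ (f (χ.symm (χ x))) := by
      rw [e0]; exact l2.contMDiffAt
    exact ContMDiffAt.comp (g := ψ) (χ x) h2 (ContMDiffAt.comp (g := f) (χ x) h1 l1.contMDiffAt)
  have hD : ContinuousAt (fderiv ℝ (loc f x)) (χ x) :=
    (hF.fderiv_right (m := 0) (by simp)).continuousAt
  have hDx : ContinuousAt (fun y => fderiv ℝ (loc f x) (χ y)) x :=
    ContinuousAt.comp (f := χ) (g := fderiv ℝ (loc f x)) hD (χ.continuousAt hxs)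
  -- the rank at `x`
  obtain ⟨A, B, hA, hB, hAB⟩ := loc_deriv f x x hxs hfs hsm.self_of_nhds
  have hr : m ≤ Module.finrank ℝ
      (LinearMap.range (fderiv ℝ (loc f x) (χ x)).toLinearMap) := by
    rw [hAB]
    exact hx2.trans (finrank_comp_eq A _ B hA hB)
  have hev := hDx.eventually (rank_open _ hr)
  filter_upwards [hev, n1, n2, n3] with y h1 h2 h3 h4
  rintro (h5 | h5)
  · exact h5 h4
  · obtain ⟨A', B', _, _, hAB'⟩ := loc_deriv f x y h2 h3 h4.self_of_nhds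
    have h6 : Module.finrank ℝ (LinearMap.range (fderiv ℝ (loc f x) (χ y)).toLinearMap) ≤
        rk (m + 1) f y := by
      rw [hAB']
      exact finrank_comp_le A' _ B'
    omega

end Pool.Agent.N550.RF.Rkc
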