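import Pool.Agent.N550.RF.Stm

/-!
# Project RF: almost all fibres are disjoint from a given null set (helper738)
-/

set_option autoImplicit false

open Set Filter Topology Metric Function MeasureTheory
open scoped Manifold ContDiff NNReal

noncomputable section

namespace Pool.Agent.N550.RF.Tnull

open Pool.Agent.Y522 Pool.Agent.N550.KH Pool.Agent.N550.SH Pool.Agent.N550.CQ
open Pool.Agent.N550.RF

/-! ### The stereographic projection -/

theorem ste_max (k : ℕ) (a : Sp k) :
    ste k a ∈ IsManifold.maximalAtlas (𝓡 k) ∞ (Sp k) := by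
  have := Fact.mk (@finrank_euclideanSpace_fin ℝ _ (k + 1))
  exact IsManifold.subset_maximalAtlas ⟨a, rfl⟩

theorem ste_symm_smooth (k : ℕ) (a : Sp k) (z : E k) :
    ContMDiffAt (𝓡 k) (𝓡 k) ∞ (ste k a).symm z := by
  have h := contMDiffOn_symm_of_mem_maximalAtlas (ste_max k a)
  refine (h z ?_).contMDiffAt ((ste k a).open_target.mem_nhds ?_)
  · rw [ste_target]; trivial
  · rw [ste_target]; trivial

theorem ste_symm_ne (k : ℕ) (a : Sp k) (z : E k) : (ste k a).symm z ≠ a := by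
  have h := (ste k a).map_target (x := z) (by rw [ste_target]; trivial)
  rw [ste_source] at h
  exact h

theorem ste_right (k : ℕ) (a : Sp k) (z : E k) : ste k a ((ste k a).symm z) = z :=
  (ste k a).right_inv (by rw [ste_target]; trivial)

theorem ste_left (k : ℕ) (a u : Sp k) (h : u ≠ a) : (ste k a).symm (ste k a u) = u :=
  (ste k a).left_inv (by rw [ste_source]; exact h)

/-! ### Linear coordinates -/

/-- the first coordinate and the others -/
def J : E 4 ≃L[ℝ] ℝ × E 3 :=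
  LinearEquiv.toContinuousLinearEquiv
    { toFun := fun z => (z 0, WithLp.toLp 2 (fun i : Fin 3 => z i.succ))
      invFun := fun p => WithLp.toLp 2 (Fin.cons p.1 (fun i : Fin 3 => p.2 i))
      map_add' := fun x y => by
        refine Prod.ext (by simp) ?_
        ext i
        simp
      map_smul' := fun c x => by
        refine Prod.ext (by simp) ?_
        ext i
        simp
      left_inv := fun z => by
        ext i
        refine Fin.cases ?_ (fun i => ?_) i
        · simp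
        · simp
      right_inv := fun p => by
        refine Prod.ext (by simp) ?_
        ext i
        simp }

theorem J_fst (z : E 4) : (J z).1 = z 0 := rfl

theorem J_right (p : ℝ × E 3) : J (J.symm p) = p := J.apply_symm_apply p

theorem J_left (z : E 4) : J.symm (J z) = z := J.symm_apply_apply z

/-! ### Charts of the product -/

/-- parametrization of a product of an interval of length one and a punctured sphere -/
def kap (t : ℝ) (a : Sp 3) (z : E 4) : ℝ × Sp 3 :=
  (t + Real.arctan (J z).1 / Real.pi, (ste 3 a).symm (J z).2)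

/-- the inverse -/
def kai (t : ℝ) (a : Sp 3) (p : ℝ × Sp 3) : E 4 :=
  J.symm (Real.tan (Real.pi * (p.1 - t)), ste 3 a p.2)

theorem kai_kap (t : ℝ) (a : Sp 3) (z : E 4) : kai t a (kap t a z) = z := by
  unfold kai kap
  have h1 : Real.pi * (t + Real.arctan (J z).1 / Real.pi - t) = Real.arctan (J z).1 := by
    have := Real.pi_pos
    field_simp
    ring
  simp only [h1, Real.tan_arctan, ste_right]
  exact J_left z

theorem kap_kai (t : ℝ) (a : Sp 3) (p : ℝ × Sp 3) (h : |p.1 - t| < 1 / 2) (hp : p.2 ≠ a) :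
    kap t a (kai t a p) = p := by
  unfold kai kap
  rw [J_right]
  have h1 := abs_lt.1 h
  have hpi := Real.pi_pos
  have h2 : Real.arctan (Real.tan (Real.pi * (p.1 - t))) = Real.pi * (p.1 - t) := by
    refine Real.arctan_tan ?_ ?_
    · nlinarith
    · nlinarith
  simp only [h2, ste_left 3 a p.2 hp]
  refine Prod.ext ?_ rfl
  show t + Real.pi * (p.1 - t) / Real.pi = p.1
  field_simp
  ring

theorem kap_fst (t : ℝ) (a : Sp 3) (z : E 4) : |(kap t a z).1 - t| < 1 / 2 := by
  unfold kap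
  have hpi := Real.pi_pos
  have h1 := Real.arctan_lt_pi_div_two (J z).1
  have h2 := Real.neg_pi_div_two_lt_arctan (J z).1
  have h3 : t + Real.arctan (J z).1 / Real.pi - t = Real.arctan (J z).1 / Real.pi := by ring
  show |t + Real.arctan (J z).1 / Real.pi - t| < 1 / 2
  rw [h3, abs_lt]
  constructor
  · rw [lt_div_iff₀ hpi]
    linarith
  · rw [div_lt_iff₀ hpi]
    linarith

theorem kap_snd (t : ℝ) (a : Sp 3) (z : E 4) : (kap t a z).2 ≠ a := ste_symm_ne 3 a _

theorem kap_smooth (t : ℝ) (a : Sp 3) (z : E 4) :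
    ContMDiffAt (𝓡 4) (𝓘(ℝ, ℝ).prod (𝓡 3)) ∞ (kap t a) z := by
  have h1 : ContMDiffAt (𝓡 4) 𝓘(ℝ, ℝ) ∞
      (fun z : E 4 => t + Real.arctan (J z).1 / Real.pi) z := by
    refine ContDiffAt.contMDiffAt ?_
    have h2 : ContDiff ℝ ∞ (fun z : E 4 => (J z).1) := contDiff_fst.comp J.contDiff
    exact (contDiff_const.add ((Real.contDiff_arctan.comp h2).div_const _)).contDiffAt
  have h2 : ContMDiffAt (𝓡 4) (𝓡 3) ∞ (fun z : E 4 => (ste 3 a).symm (J z).2) z := by
    have h3 : ContMDiffAt (𝓡 4) (𝓡 3) ∞ (fun z : E 4 => (J z).2) z :=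
      ContDiffAt.contMDiffAt (contDiff_snd.comp J.contDiff).contDiffAt
    exact (ste_symm_smooth 3 a (J z).2).comp z h3
  exact h1.prodMk h2

theorem kai_smooth (t : ℝ) (a : Sp 3) (p : ℝ × Sp 3) (h : |p.1 - t| < 1 / 2) (hp : p.2 ≠ a) :
    ContMDiffAt (𝓘(ℝ, ℝ).prod (𝓡 3)) (𝓡 4) ∞ (kai t a) p := by
  have h1 : ContMDiffAt (𝓘(ℝ, ℝ).prod (𝓡 3)) 𝓘(ℝ, ℝ) ∞
      (fun p : ℝ × Sp 3 => Real.tan (Real.pi * (p.1 - t))) p := by
    have h2 : ContMDiffAt 𝓘(ℝ, ℝ) 𝓘(ℝ, ℝ) ∞ (fun s : ℝ => Real.tan (Real.pi * (s - t))) p.1 := by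
      refine ContDiffAt.contMDiffAt ?_
      have h3 : ContDiffAt ℝ ∞ Real.tan (Real.pi * (p.1 - t)) := by
        rw [Real.contDiffAt_tan]
        have h4 := abs_lt.1 h
        have hpi := Real.pi_pos
        refine (Real.cos_pos_of_mem_Ioo ⟨?_, ?_⟩).ne'
        · nlinarith
        · nlinarith
      exact ContDiffAt.comp (g := Real.tan) (f := fun s : ℝ => Real.pi * (s - t)) p.1 h3
        (contDiff_const.mul (contDiff_id.sub contDiff_const)).contDiffAt
    exact h2.comp p contMDiffAt_fst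
  have h2 : ContMDiffAt (𝓘(ℝ, ℝ).prod (𝓡 3)) (𝓡 3) ∞ (fun p : ℝ × Sp 3 => ste 3 a p.2) p :=
    (ste_smooth 3 a p.2 hp).comp p contMDiffAt_snd
  have h3 : ContMDiffAt 𝓘(ℝ, ℝ × E 3) (𝓡 4) ∞ (fun q : ℝ × E 3 => J.symm q)
      (Real.tan (Real.pi * (p.1 - t)), ste 3 a p.2) :=
    ContDiffAt.contMDiffAt J.symm.contDiff.contDiffAt
  exact h3.comp p (h1.prodMk_space h2)

/-- the parametrization as a partial diffeomorphism -/
def kapD (t : ℝ) (a : Sp 3) :
    PartialDiffeomorph (𝓡 4) (𝓘(ℝ, ℝ).prod (𝓡 3)) (E 4) (ℝ × Sp 3) ∞ where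
  toFun := kap t a
  invFun := kai t a
  source := univ
  target := {p | |p.1 - t| < 1 / 2 ∧ p.2 ≠ a}
  map_source' := fun z _ => ⟨kap_fst t a z, kap_snd t a z⟩
  map_target' := fun _ _ => mem_univ _
  left_inv' := fun z _ => kai_kap t a z
  right_inv' := fun p hp => kap_kai t a p hp.1 hp.2
  open_source := isOpen_univ
  open_target := by
    have h1 : IsOpen {p : ℝ × Sp 3 | |p.1 - t| < 1 / 2} :=
      isOpen_lt ((continuous_fst.sub continuous_const).abs) continuous_const
    have h2 : IsOpen {p : ℝ × Sp 3 | p.2 ≠ a} := isOpen_ne_fun continuous_snd continuous_const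
    exact h1.inter h2
  contMDiffOn_toFun := fun z _ => (kap_smooth t a z).contMDiffWithinAt
  contMDiffOn_invFun := fun p hp => (kai_smooth t a p hp.1 hp.2).contMDiffWithinAt

theorem kap_ld (t : ℝ) (a : Sp 3) (z : E 4) :
    IsLocalDiffeomorphAt (𝓡 4) (𝓘(ℝ, ℝ).prod (𝓡 3)) ∞ (kap t a) z :=
  ⟨kapD t a, mem_univ _, fun _ _ => rfl⟩

section

variable {N : Type} [TopologicalSpace N] [T2Space N] [ChartedSpace (E 4) N]
    [IsManifold (𝓡 4) ∞ N] {ρ : Equiv.Perm (Sp 3)} {P : ℝ × Sp 3 → N}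

omit [T2Space N] [IsManifold (𝓡 4) ∞ N] in
theorem inj (hP : IsTorus ρ P) (t : ℝ) (a : Sp 3) : Injective (fun z => P (kap t a z)) := by
  intro z z' h
  obtain ⟨k, h1, h2⟩ := (hP.fib _ _).1 h
  have h3 := abs_lt.1 (kap_fst t a z)
  have h4 := abs_lt.1 (kap_fst t a z')
  have h5 : k = 0 := by
    have h6 : (-1 : ℝ) < k := by linarith
    have h7 : (k : ℝ) < 1 := by linarith
    have h8 : (-1 : ℤ) < k := by exact_mod_cast h6
    have h9 : k < 1 := by exact_mod_cast h7
    omega
  subst h5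
  have h6 : kap t a z' = kap t a z := by
    refine Prod.ext ?_ ?_
    · rw [h1]
      simp
    · rw [h2]
      simp
  rw [← kai_kap t a z, ← kai_kap t a z', h6]

omit [T2Space N] [IsManifold (𝓡 4) ∞ N] in
theorem ldc (hP : IsTorus ρ P) (t : ℝ) (a : Sp 3) (z : E 4) :
    LD 4 (fun z => P (kap t a z)) z :=
  IsLocalDiffeomorphAt.comp (𝓡 4) N (kap_ld t a z) (hP.ld _)

theorem lip (t : ℝ) : LipschitzWith 1 (fun z : E 4 => t + Real.arctan (J z).1 / Real.pi) := by
  have h0 : LipschitzWith 1 (fun s : ℝ => t + Real.arctan s / Real.pi) := by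
    have hd : ∀ s, HasDerivAt (fun s : ℝ => t + Real.arctan s / Real.pi)
        (1 / (1 + s ^ 2) / Real.pi) s := fun s =>
      ((Real.hasDerivAt_arctan s).div_const _).const_add _
    refine lipschitzWith_of_nnnorm_deriv_le (fun s => (hd s).differentiableAt) fun s => ?_
    rw [(hd s).deriv, ← NNReal.coe_le_coe, coe_nnnorm, NNReal.coe_one, Real.norm_eq_abs,
      abs_of_nonneg (by positivity), div_div, div_le_one (by positivity)]
    have hpi : (1 : ℝ) ≤ Real.pi := by linarith [Real.pi_gt_three]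
    nlinarith [sq_nonneg s]
  refine LipschitzWith.of_dist_le_mul fun z z' => ?_
  have h1 := h0.dist_le_mul (J z).1 (J z').1
  refine h1.trans ?_
  rw [NNReal.coe_one, one_mul, one_mul, J_fst, J_fst, Real.dist_eq, dist_eq_norm]
  exact PiLp.norm_apply_le (z - z') 0

omit [T2Space N] [IsManifold (𝓡 4) ∞ N] in
theorem null (hP : IsTorus ρ P) {B : Set N} (hB : NullH 4 B) (t : ℝ) (a : Sp 3) :
    volume ((fun z : E 4 => t + Real.arctan (J z).1 / Real.pi) ''
      ((fun z => P (kap t a z)) ⁻¹' B)) = 0 := by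
  have h1 := hB _ (inj hP t a) (ldc hP t a)
  have h2 := (lip t).hausdorffMeasure_image_le (d := 1) zero_le_one
    ((fun z => P (kap t a z)) ⁻¹' B)
  rw [h1, mul_zero, hausdorffMeasure_real] at h2
  exact le_antisymm h2 bot_le

end

theorem main : S_TNULL := by
  intro N _ _ _ _ ρ P hP B hB
  obtain ⟨u₀⟩ : Nonempty (Sp 3) := ⟨⟨EuclideanSpace.single 0 1, by simp⟩⟩
  have hsub : {t : ℝ | ∃ u, P (t, u) ∈ B} ⊆ ⋃ q : ℤ × Bool,
      (fun z : E 4 => (q.1 : ℝ) / 2 + Real.arctan (J z).1 / Real.pi) ''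
      ((fun z => P (kap ((q.1 : ℝ) / 2) (if q.2 then u₀ else -u₀) z)) ⁻¹' B) := by
    rintro t ⟨u, hu⟩
    obtain ⟨b, hb⟩ : ∃ b : Bool, u ≠ (if b then u₀ else -u₀) := by
      by_cases h : u = u₀
      · refine ⟨false, ?_⟩
        rw [h]
        simp only [Bool.false_eq_true, if_false]
        exact ne_neg_of_mem_unit_sphere ℝ u₀
      · exact ⟨true, by simpa using h⟩
    have h1 : |t - ((round (2 * t) : ℤ) : ℝ) / 2| < 1 / 2 := by
      have h2 := abs_sub_round (2 * t)
      have h3 : t - ((round (2 * t) : ℤ) : ℝ) / 2 = (2 * t - ((round (2 * t) : ℤ) : ℝ)) / 2 := by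
        ring
      rw [h3, abs_div, abs_two]
      linarith
    rw [mem_iUnion]
    refine ⟨(round (2 * t), b), ?_⟩
    have h2 := kap_kai (((round (2 * t) : ℤ) : ℝ) / 2) (if b then u₀ else -u₀) (t, u) h1 hb
    refine ⟨kai (((round (2 * t) : ℤ) : ℝ) / 2) (if b then u₀ else -u₀) (t, u), ?_, ?_⟩
    · show P (kap _ _ _) ∈ B
      rw [h2]
      exact hu
    · exact congrArg Prod.fst h2
  refine measure_mono_null hsub ?_
  rw [measure_iUnion_null_iff]
  intro q
  exact null hP hB _ _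

end Pool.Agent.N550.RF.Tnull
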