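import Pool.Agent.N550.RF.Stm
import Pool.Agent.N550.PS.Cir

/-!
# Project RF: the handle decomposition of a 3-sphere bundle relative to a fibre (S_TOR), by helper227
-/

set_option autoImplicit false

open Set Filter Topology Metric Function MeasureTheory
open scoped Manifold ContDiff

noncomputable section

namespace Pool.Agent.N550.RF.Tor

open Pool.Agent.Y522 Pool.Agent.N550.KH Pool.Agent.N550.SH Pool.Agent.N550.CQ Pool.Agent.N550.RF
open Pool.Agent.N550.PS.Cir (ste_neg ste_ld ste_symm_smooth ste_symm_ne ste_left ste_right)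
open Pool.Agent.N550

/-! ### The line and the interval -/

/-- the diffeomorphism of the line onto the interval -/
def U : OpenPartialHomeomorph ℝ ℝ := OpenPartialHomeomorph.univUnitBall

theorem U_apply (x : ℝ) : U x = (√(1 + x ^ 2))⁻¹ * x := by
  show (OpenPartialHomeomorph.univUnitBall : OpenPartialHomeomorph ℝ ℝ) x = _
  rw [OpenPartialHomeomorph.univUnitBall_apply, Real.norm_eq_abs, sq_abs, smul_eq_mul]

theorem U_lt (x : ℝ) : |U x| < 1 := by
  have h : U x ∈ ball (0 : ℝ) 1 := U.map_source (x := x) (mem_univ x)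
  rwa [mem_ball_zero_iff, Real.norm_eq_abs] at h

theorem U_symm_U (x : ℝ) : U.symm (U x) = x := U.left_inv (mem_univ x)

theorem U_U_symm {y : ℝ} (hy : |y| < 1) : U (U.symm y) = y := by
  refine U.right_inv ?_
  show y ∈ ball (0 : ℝ) 1
  rwa [mem_ball_zero_iff, Real.norm_eq_abs]

theorem U_le (x y : ℝ) : |U x| ≤ |U y| ↔ |x| ≤ |y| := by
  rw [← sq_le_sq, ← sq_le_sq, U_apply, U_apply, mul_pow, mul_pow, inv_pow, inv_pow,
    Real.sq_sqrt (by positivity), Real.sq_sqrt (by positivity), ← div_eq_inv_mul,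
    ← div_eq_inv_mul, div_le_div_iff₀ (by positivity) (by positivity)]
  constructor <;> intro h <;> nlinarith

theorem U_smooth : ContDiff ℝ ∞ (fun x : ℝ => U x) :=
  OpenPartialHomeomorph.contDiff_univUnitBall

theorem U_symm_smooth {y : ℝ} (hy : |y| < 1) : ContDiffAt ℝ ∞ (fun y : ℝ => U.symm y) y := by
  have h : ContDiffOn ℝ ∞ (fun y : ℝ => U.symm y) (ball (0 : ℝ) 1) :=
    OpenPartialHomeomorph.contDiffOn_univUnitBall_symm
  refine (h y ?_).contDiffAt (isOpen_ball.mem_nhds ?_) <;>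
  rwa [mem_ball_zero_iff, Real.norm_eq_abs]

/-! ### The pieces -/

/-- the first coordinate -/
def tm (μ lam a : ℝ) (z : E (1 + 3)) : ℝ := μ + lam * U (a * up 1 3 z 0)

/-- the inverse of the first coordinate -/
def iv (μ lam a : ℝ) (t : ℝ) : E 1 := (U.symm ((t - μ) / lam) / a) • WithLp.toLp 2 (fun _ => (1 : ℝ))

/-- the piece -/
def pc (μ lam a : ℝ) (b : Sp 3) (z : E (1 + 3)) : ℝ × Sp 3 :=
  (tm μ lam a z, (ste 3 b).symm (vp 1 3 z))

/-- the inverse of the piece -/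
def qc (μ lam a : ℝ) (b : Sp 3) (w : ℝ × Sp 3) : E (1 + 3) :=
  jn 1 3 (iv μ lam a w.1) (ste 3 b w.2)

theorem tm_lt {μ lam a : ℝ} (hl : 0 < lam) (z : E (1 + 3)) : |tm μ lam a z - μ| < lam := by
  have h := U_lt (a * up 1 3 z 0)
  have e : tm μ lam a z - μ = lam * U (a * up 1 3 z 0) := by
    unfold tm
    ring
  rw [e, abs_mul, abs_of_pos hl]
  nlinarith

theorem iv_apply (μ lam a t : ℝ) (i : Fin 1) :
    iv μ lam a t i = U.symm ((t - μ) / lam) / a := by
  unfold iv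
  simp

theorem qc_pc {μ lam a : ℝ} (hl : 0 < lam) (ha : 0 < a) (b : Sp 3) (z : E (1 + 3)) :
    qc μ lam a b (pc μ lam a b z) = z := by
  unfold qc pc
  have e1 : iv μ lam a (tm μ lam a z) = up 1 3 z := by
    ext i
    obtain rfl : i = 0 := Subsingleton.elim _ _
    have e2 : (tm μ lam a z - μ) / lam = U (a * up 1 3 z 0) := by
      unfold tm
      field_simp
      ring
    rw [iv_apply, e2, U_symm_U, mul_div_cancel_left₀ _ ha.ne']
  show jn 1 3 (iv μ lam a (tm μ lam a z)) (ste 3 b ((ste 3 b).symm (vp 1 3 z))) = z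
  rw [e1, ste_right, jn_up_vp]

theorem pc_qc {μ lam a : ℝ} (hl : 0 < lam) (ha : 0 < a) (b : Sp 3) (w : ℝ × Sp 3)
    (h1 : |w.1 - μ| < lam) (h2 : w.2 ≠ b) : pc μ lam a b (qc μ lam a b w) = w := by
  have h3 : |(w.1 - μ) / lam| < 1 := by
    rw [abs_div, abs_of_pos hl, div_lt_one hl]
    exact h1
  refine Prod.ext ?_ ?_
  · show μ + lam * U (a * up 1 3 (jn 1 3 (iv μ lam a w.1) (ste 3 b w.2)) 0) = w.1
    rw [up_jn, iv_apply, mul_div_cancel₀ _ ha.ne', U_U_symm h3]
    field_simp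
    ring
  · show (ste 3 b).symm (vp 1 3 (jn 1 3 (iv μ lam a w.1) (ste 3 b w.2))) = w.2
    rw [vp_jn, ste_left 3 b _ h2]

theorem tm_smooth (μ lam a : ℝ) : ContDiff ℝ ∞ (tm μ lam a) := by
  have h1 : ContDiff ℝ ∞ (fun z : E (1 + 3) => up 1 3 z 0) :=
    contDiff_euclidean.1 (up 1 3).contDiff 0
  exact contDiff_const.add (contDiff_const.mul (U_smooth.comp (contDiff_const.mul h1)))

theorem iv_smooth {μ lam : ℝ} (a : ℝ) (hl : 0 < lam) {t : ℝ} (ht : |t - μ| < lam) :
    ContDiffAt ℝ ∞ (iv μ lam a) t := by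
  have h3 : |(t - μ) / lam| < 1 := by
    rw [abs_div, abs_of_pos hl, div_lt_one hl]
    exact ht
  have h4 : ContDiffAt ℝ ∞ (fun t : ℝ => (t - μ) / lam) t :=
    (contDiffAt_id.sub contDiffAt_const).div_const _
  have h5 : ContDiffAt ℝ ∞ (fun t : ℝ => U.symm ((t - μ) / lam)) t :=
    ContDiffAt.comp (g := fun y : ℝ => U.symm y) t (U_symm_smooth h3) h4
  exact (h5.div_const a).smul contDiffAt_const

/-- the piece as a diffeomorphism onto an open set -/
def PD (μ lam a : ℝ) (hl : 0 < lam) (ha : 0 < a) (b : Sp 3) :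
    PartialDiffeomorph (𝓡 (1 + 3)) (𝓘(ℝ, ℝ).prod (𝓡 3)) (E (1 + 3)) (ℝ × Sp 3) ∞ where
  toFun := pc μ lam a b
  invFun := qc μ lam a b
  source := univ
  target := ball μ lam ×ˢ {b}ᶜ
  map_source' := fun z _ => by
    refine ⟨?_, ste_symm_ne 3 b _⟩
    rw [mem_ball, Real.dist_eq]
    exact tm_lt hl z
  map_target' := fun _ _ => mem_univ _
  left_inv' := fun z _ => qc_pc hl ha b z
  right_inv' := fun w hw => by
    refine pc_qc hl ha b w ?_ hw.2
    have := hw.1
    rwa [mem_ball, Real.dist_eq] at this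
  open_source := isOpen_univ
  open_target := isOpen_ball.prod isClosed_singleton.isOpen_compl
  contMDiffOn_toFun := by
    refine ContMDiff.contMDiffOn ?_
    refine ContMDiff.prodMk (tm_smooth μ lam a).contMDiff ?_
    intro z
    exact ContMDiffAt.comp (g := (ste 3 b).symm) z (ste_symm_smooth 3 b _)
      (vp 1 3).contDiff.contMDiff.contMDiffAt
  contMDiffOn_invFun := by
    intro w hw
    refine ContMDiffAt.contMDiffWithinAt ?_
    have hw1 : |w.1 - μ| < lam := by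
      have := hw.1
      rwa [mem_ball, Real.dist_eq] at this
    have h3 : ContMDiffAt (𝓘(ℝ, ℝ).prod (𝓡 3)) (𝓡 1) ∞
        (fun w : ℝ × Sp 3 => iv μ lam a w.1) w :=
      ContMDiffAt.comp (g := iv μ lam a) w (iv_smooth a hl hw1).contMDiffAt contMDiffAt_fst
    have h4 : ContMDiffAt (𝓘(ℝ, ℝ).prod (𝓡 3)) (𝓡 3) ∞
        (fun w : ℝ × Sp 3 => ste 3 b w.2) w :=
      ContMDiffAt.comp (g := ste 3 b) w (ste_smooth 3 b _ hw.2) contMDiffAt_snd
    have h5 : ContMDiffAt (𝓘(ℝ, ℝ).prod (𝓡 3)) 𝓘(ℝ, E 1 × E 3) ∞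
        (fun w : ℝ × Sp 3 => (iv μ lam a w.1, ste 3 b w.2)) w := h3.prodMk_space h4
    have e : qc μ lam a b = fun w => Pool.Agent.N550.PS.Cir.JL 3 1 one_ne_zero
        (iv μ lam a w.1, ste 3 b w.2) := by
      funext w
      rw [Pool.Agent.N550.PS.Cir.JL_apply, one_smul]
      rfl
    show ContMDiffAt _ _ _ (qc μ lam a b) w
    rw [e]
    exact ContMDiffAt.comp (g := Pool.Agent.N550.PS.Cir.JL 3 1 one_ne_zero) w
      (Pool.Agent.N550.PS.Cir.JL 3 1 one_ne_zero).contDiff.contMDiff.contMDiffAt h5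

theorem pc_inj {μ lam a : ℝ} (hl : 0 < lam) (ha : 0 < a) (b : Sp 3) :
    Injective (pc μ lam a b) := fun z w h => by
  rw [← qc_pc hl ha b z, h, qc_pc hl ha b w]

section torus

variable {N : Type} [TopologicalSpace N] [ChartedSpace (E 4) N] {ρ : Equiv.Perm (Sp 3)}
  {P : ℝ × Sp 3 → N} (hP : IsTorus ρ P)
include hP

theorem ld_piece {μ lam a : ℝ} (hl : 0 < lam) (ha : 0 < a) (b : Sp 3) (z : E (1 + 3)) :
    LD (1 + 3) (fun z => P (pc μ lam a b z)) z := by
  have h1 : IsLocalDiffeomorphAt (𝓡 (1 + 3)) (𝓘(ℝ, ℝ).prod (𝓡 3)) ∞ (pc μ lam a b) z :=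
    ⟨PD μ lam a hl ha b, mem_univ _, fun _ _ => rfl⟩
  exact IsLocalDiffeomorphAt.comp (𝓡 4) N h1 (hP.ld _)

theorem fib_eq {t t' : ℝ} {u u' : Sp 3} (h : P (t, u) = P (t', u')) (hlt : |t' - t| < 1) :
    t = t' ∧ u = u' := by
  obtain ⟨k, hk1, hk2⟩ := (hP.fib _ _).1 h
  have hk1' : t' = t + k := hk1
  have h1 : |((k : ℤ) : ℝ)| < 1 := by
    have e : t' - t = k := by rw [hk1']; ring
    rwa [e] at hlt
  have h2 : |k| < 1 := by exact_mod_cast h1
  obtain rfl : k = 0 := Int.abs_lt_one_iff.1 h2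
  refine ⟨by rw [hk1']; simp, ?_⟩
  have hk2' : u' = (ρ ^ (0 : ℤ)) u := hk2
  rw [hk2']
  simp

theorem piece_inj {μ lam a : ℝ} (hl : 0 < lam) (hl2 : 2 * lam ≤ 1) (ha : 0 < a) (b : Sp 3) :
    Injective (fun z => P (pc μ lam a b z)) := by
  intro z w h
  have h1 := abs_lt.1 (tm_lt (μ := μ) (a := a) hl z)
  have h2 := abs_lt.1 (tm_lt (μ := μ) (a := a) hl w)
  have h3 := fib_eq hP (t := tm μ lam a z) (t' := tm μ lam a w) h (by
    rw [abs_lt]
    constructor <;> linarith [h1.1, h1.2, h2.1, h2.2])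
  exact pc_inj hl ha b (Prod.ext h3.1 h3.2)

theorem mem_K {t₀ ε t : ℝ} (h0 : 0 < ε) (h1 : ε < 1 / 2) (ht : t₀ ≤ t) (ht' : t < t₀ + 1)
    (u : Sp 3) : P (t, u) ∈ P '' (Icc (t₀ - ε) (t₀ + ε) ×ˢ univ) ↔
      t ≤ t₀ + ε ∨ t₀ + 1 - ε ≤ t := by
  constructor
  · rintro ⟨⟨s, v⟩, ⟨hs, _⟩, e⟩
    obtain ⟨k, hk, -⟩ := (hP.fib _ _).1 e
    have hk' : t = s + k := hk
    have hs1 : t₀ - ε ≤ s := hs.1
    have hs2 : s ≤ t₀ + ε := hs.2
    rcases lt_trichotomy k 0 with h | h | h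
    · have h2 : ((k : ℤ) : ℝ) ≤ -1 := by exact_mod_cast (by omega : k ≤ -1)
      exfalso
      linarith
    · subst h
      left
      push_cast at hk'
      linarith
    · have h2 : (1 : ℝ) ≤ ((k : ℤ) : ℝ) := by exact_mod_cast (by omega : 1 ≤ k)
      right
      linarith
  · rintro (h | h)
    · exact ⟨(t, u), ⟨⟨by linarith, h⟩, mem_univ _⟩, rfl⟩
    · refine ⟨(t - 1, (ρ ^ (-1 : ℤ)) u), ⟨⟨by linarith, by linarith⟩, mem_univ _⟩, ?_⟩
      refine (hP.fib _ _).2 ⟨1, by simp, ?_⟩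
      show u = (ρ ^ (1 : ℤ)) ((ρ ^ (-1 : ℤ)) u)
      rw [← Equiv.Perm.mul_apply, ← zpow_add]
      simp

end torus

theorem norm_E1 (v : E 1) : ‖v‖ = |v 0| := by
  rw [EuclideanSpace.norm_eq]
  simp [Real.sqrt_sq_eq_abs]

theorem main : S_TOR := by
  intro N _ _ _ _ ρ P hP t₀ ε hε hε2
  obtain ⟨b⟩ : Nonempty (Sp 3) := ⟨⟨EuclideanSpace.single 0 1, by simp⟩⟩
  have hbb : b ≠ -b := ne_neg_of_mem_unit_sphere ℝ b
  have hb0 : (ste 3 (-b)).symm 0 = b := by
    have h := ste_left 3 (-b) b hbb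
    rwa [ste_neg] at h
  have h1ε : |1 - 2 * ε| < 1 := by
    rw [abs_lt]
    constructor <;> linarith
  set a := U.symm (1 - 2 * ε) with ha_def
  have hUa : U a = 1 - 2 * ε := U_U_symm h1ε
  have ha : 0 < a := by
    by_contra h
    push Not at h
    have h2 := U_apply a
    rw [hUa] at h2
    have h3 : (√(1 + a ^ 2))⁻¹ * a ≤ 0 := mul_nonpos_of_nonneg_of_nonpos (by positivity) h
    linarith
  have hUa' : |U a| = 1 - 2 * ε := by
    rw [hUa, abs_of_pos]
    linarith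
  set μ := t₀ + 1 / 2 with hμ
  have key : ∀ z : E (1 + 3), (|tm μ (1 / 2) a z - μ| = |U (a * up 1 3 z 0)| / 2) := by
    intro z
    have e : tm μ (1 / 2) a z - μ = U (a * up 1 3 z 0) / 2 := by
      unfold tm
      ring
    rw [e, abs_div, abs_of_pos (two_pos : (0 : ℝ) < 2)]
  have hax : ∀ x : ℝ, |a * x| = a * |x| := fun x => by rw [abs_mul, abs_of_pos ha]
  refine ⟨fun z => P (pc μ (1 / 2) a (-b) z), fun z => P (pc μ (1 / 2 - ε) 1 b z),
    piece_inj hP (by norm_num) (by norm_num) ha _, ld_piece hP (by norm_num) ha _, ?_,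
    piece_inj hP (by linarith) (by linarith) one_pos _, ld_piece hP (by linarith) one_pos _, ?_⟩
  · intro z
    have h1 := abs_lt.1 (tm_lt (μ := μ) (lam := 1 / 2) (a := a) (by norm_num) z)
    refine (mem_K hP (t := tm μ (1 / 2) a z) hε hε2 (by linarith [h1.1, h1.2])
      (by linarith [h1.1, h1.2]) _).trans ?_
    have h2 : (tm μ (1 / 2) a z ≤ t₀ + ε ∨ t₀ + 1 - ε ≤ tm μ (1 / 2) a z) ↔
        |U a| ≤ |U (a * up 1 3 z 0)| := by
      have h3 := key z
      rw [hUa']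
      constructor
      · rintro (h | h)
        · have h4 : |tm μ (1 / 2) a z - μ| = -(tm μ (1 / 2) a z - μ) :=
            abs_of_nonpos (by linarith)
          linarith
        · have h4 : |tm μ (1 / 2) a z - μ| = tm μ (1 / 2) a z - μ :=
            abs_of_nonneg (by linarith)
          linarith
      · intro h
        rcases abs_cases (tm μ (1 / 2) a z - μ) with ⟨h4, _⟩ | ⟨h4, _⟩
        · right
          linarith
        · left
          linarith
    rw [h2, U_le, hax, norm_E1, abs_of_pos ha]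
    constructor
    · intro h
      exact le_of_mul_le_mul_left (by linarith) ha
    · intro h
      nlinarith
  · ext x
    constructor
    · rintro ⟨z, rfl⟩
      have h1 := abs_lt.1 (tm_lt (μ := μ) (lam := 1 / 2 - ε) (a := 1) (by linarith) z)
      rintro (h | ⟨w, ⟨hw1, hw2⟩, he⟩)
      · have h2 := (mem_K hP (t := tm μ (1 / 2 - ε) 1 z) hε hε2 (by linarith [h1.1, h1.2])
          (by linarith [h1.1, h1.2]) _).1 h
        rcases h2 with h2 | h2 <;> linarith [h1.1, h1.2]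
      · have h2 := abs_lt.1 (tm_lt (μ := μ) (lam := 1 / 2) (a := a) (by norm_num) w)
        have h3 := fib_eq hP (t := tm μ (1 / 2) a w) (t' := tm μ (1 / 2 - ε) 1 z) he (by
          rw [abs_lt]
          constructor <;> linarith [h1.1, h1.2, h2.1, h2.2])
        have h4 : (ste 3 (-b)).symm (vp 1 3 w) = (ste 3 b).symm (vp 1 3 z) := h3.2
        rw [hw1, hb0] at h4
        exact ste_symm_ne 3 b _ h4.symm
    · intro hx
      obtain ⟨⟨s, v⟩, rfl⟩ := hP.surj x
      obtain ⟨t, u, ht1, ht2, e⟩ : ∃ (t : ℝ) (u : Sp 3), t₀ ≤ t ∧ t < t₀ + 1 ∧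
          P (s, v) = P (t, u) := by
        refine ⟨s - ⌊s - t₀⌋, (ρ ^ (-⌊s - t₀⌋)) v, ?_, ?_, ?_⟩
        · have := Int.floor_le (s - t₀)
          linarith
        · have := Int.lt_floor_add_one (s - t₀)
          linarith
        · refine (hP.fib _ _).2 ⟨-⌊s - t₀⌋, ?_, rfl⟩
          show s - (⌊s - t₀⌋ : ℝ) = s + ((-⌊s - t₀⌋ : ℤ) : ℝ)
          push_cast
          ring
      rw [e] at hx ⊢
      have hx1 : ¬ (t ≤ t₀ + ε ∨ t₀ + 1 - ε ≤ t) := fun h =>
        hx (Or.inl ((mem_K hP hε hε2 ht1 ht2 u).2 h))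
      push Not at hx1
      by_cases hu : u = b
      · subst hu
        exfalso
        apply hx
        right
        have ht : |t - μ| < 1 / 2 := by
          rw [abs_lt]
          constructor <;> linarith [hx1.1, hx1.2]
        have hz := pc_qc (a := a) (by norm_num : (0 : ℝ) < 1 / 2) ha (-u) (t, u) ht hbb
        refine ⟨qc μ (1 / 2) a (-u) (t, u), ⟨?_, ?_⟩, ?_⟩
        · show vp 1 3 (jn 1 3 (iv μ (1 / 2) a t) (ste 3 (-u) u)) = 0
          rw [vp_jn, ste_neg]
        · have h3 := key (qc μ (1 / 2) a (-u) (t, u))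
          have h4 : tm μ (1 / 2) a (qc μ (1 / 2) a (-u) (t, u)) = t := congrArg Prod.fst hz
          rw [h4] at h3
          have h5 : |t - μ| ≤ 1 / 2 - ε := by
            rw [abs_le]
            constructor <;> linarith [hx1.1, hx1.2]
          have h6 : |U (a * up 1 3 (qc μ (1 / 2) a (-u) (t, u)) 0)| ≤ |U a| := by
            rw [hUa']
            linarith
          rw [U_le, hax, abs_of_pos ha] at h6
          rw [norm_E1]
          exact le_of_mul_le_mul_left (by linarith) ha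
        · show P (pc μ (1 / 2) a (-u) (qc μ (1 / 2) a (-u) (t, u))) = P (t, u)
          rw [hz]
      · have ht : |t - μ| < 1 / 2 - ε := by
          rw [abs_lt]
          constructor <;> linarith [hx1.1, hx1.2]
        have hz := pc_qc (a := 1) (by linarith : (0 : ℝ) < 1 / 2 - ε) one_pos b (t, u) ht hu
        refine ⟨qc μ (1 / 2 - ε) 1 b (t, u), ?_⟩
        show P (pc μ (1 / 2 - ε) 1 b (qc μ (1 / 2 - ε) 1 b (t, u))) = P (t, u)
        rw [hz]

end Pool.Agent.N550.RF.Tor
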