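import Pool.Agent.N550.KH.Null
import Pool.Agent.N550.RF.Finr
import Pool.Agent.N550.RF.Tor
import Pool.Agent.N550.RF.Tnull
import Pool.Agent.N550.RF.Rkc
import Pool.Agent.N550.RF.Ldk
import Pool.Agent.N550.CQ.Rkm
import Pool.Agent.N550.CQ.Sard0

/-!
# Project RF: the theorem
-/

set_option autoImplicit false

namespace Pool.Agent.N550.RF

theorem finr : S_FINR :=
  Finr.main Ldk.main Rkc.main Tor.main Tnull.main
    (Pool.Agent.N550.CQ.Rkm.main Pool.Agent.N550.CQ.Sard0.main)

end Pool.Agent.N550.RF
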