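import Pool.Agent.N550.CQ.Stm2
import Pool.Agent.N550.SH.Cross

/-!
# Project RF: statements

Homeomorphisms onto the total spaces of 3-sphere bundles over the circle.
-/

set_option autoImplicit false

open Set Filter Topology Metric Function MeasureTheory
open scoped Manifold ContDiff

noncomputable section

namespace Pool.Agent.N550.RF

open Pool.Agent.Y522 Pool.Agent.N550.KH Pool.Agent.N550.SH Pool.Agent.N550.CQ

/-- `N` is the quotient of `ℝ × S³` by the map `(t, u) ↦ (t + 1, ρ u)`, with the projection `Π`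
(here `N` is modelled on `E 4`; `ρ` is a bijection of `S³`, automatically a diffeomorphism) -/
structure IsTorus {N : Type} [TopologicalSpace N] [ChartedSpace (E 4) N]
    (ρ : Equiv.Perm (Sp 3)) (P : ℝ × Sp 3 → N) : Prop where
  surj : Surjective P
  ld : ∀ a, IsLocalDiffeomorphAt (𝓘(ℝ, ℝ).prod (𝓡 3)) (𝓡 4) ∞ P a
  fib : ∀ a b, P a = P b ↔ ∃ k : ℤ, b.1 = a.1 + k ∧ b.2 = (ρ ^ k) a.2

/-- Smooth homeomorphisms with derivatives of corank at most one over a compact set become local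
diffeomorphisms over this set. -/
def S_LDK : Prop :=
  ∀ (m : ℕ) (M N : Type) [TopologicalSpace M] [CompactSpace M] [T2Space M]
    [ChartedSpace (E (m + 1)) M] [IsManifold (𝓡 (m + 1)) ∞ M] [TopologicalSpace N]
    [CompactSpace N] [T2Space N] [ChartedSpace (E (m + 1)) N] [IsManifold (𝓡 (m + 1)) ∞ N]
    (f : M ≃ₜ N) (Z : Set M) (X : Set N), NullH (m + 1) (f '' KH.Bad (m + 1) f) →
    IsClosed Z → KH.Bad (m + 1) f ⊆ Z → (∀ x, x ∉ Z → m ≤ rk (m + 1) f x) →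
    IsClosed X → Disjoint (f '' Z) X →
    ∃ f' : M ≃ₜ N, NullH (m + 1) (f' '' KH.Bad (m + 1) f') ∧ ∀ x, f' x ∈ X → LD (m + 1) f' x

/-- The set of the points near which a map is not smooth of rank at least `m` is closed. -/
def S_RKC : Prop :=
  ∀ (m : ℕ) (M N : Type) [TopologicalSpace M] [ChartedSpace (E (m + 1)) M]
    [IsManifold (𝓡 (m + 1)) ∞ M] [TopologicalSpace N] [ChartedSpace (E (m + 1)) N]
    [IsManifold (𝓡 (m + 1)) ∞ N] (f : M → N),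
    IsClosed {x | x ∈ KH.Bad (m + 1) f ∨ rk (m + 1) f x < m}

/-- The handle decomposition of a 3-sphere bundle relative to a neighbourhood of a fibre. -/
def S_TOR : Prop :=
  ∀ (N : Type) [TopologicalSpace N] [T2Space N] [ChartedSpace (E 4) N]
    [IsManifold (𝓡 4) ∞ N] (ρ : Equiv.Perm (Sp 3)) (P : ℝ × Sp 3 → N), IsTorus ρ P →
    ∀ t₀ ε : ℝ, 0 < ε → ε < 1 / 2 →
    ∃ l c : E (1 + 3) → N, Injective l ∧ (∀ z, LD (1 + 3) l z) ∧
      (∀ z, l z ∈ P '' (Icc (t₀ - ε) (t₀ + ε) ×ˢ univ) ↔ 1 ≤ ‖up 1 3 z‖) ∧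
      Injective c ∧ (∀ z, LD (1 + 3) c z) ∧
      range c = (P '' (Icc (t₀ - ε) (t₀ + ε) ×ˢ univ) ∪
        l '' {z | vp 1 3 z = 0 ∧ ‖up 1 3 z‖ ≤ 1})ᶜ

/-- Almost all fibres are disjoint from a given null set. -/
def S_TNULL : Prop :=
  ∀ (N : Type) [TopologicalSpace N] [T2Space N] [ChartedSpace (E 4) N]
    [IsManifold (𝓡 4) ∞ N] (ρ : Equiv.Perm (Sp 3)) (P : ℝ × Sp 3 → N), IsTorus ρ P →
    ∀ B : Set N, NullH 4 B → volume {t : ℝ | ∃ u, P (t, u) ∈ B} = 0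

/-- The theorem. -/
def S_FINR : Prop :=
  ∀ (M N : Type) [TopologicalSpace M] [CompactSpace M] [T2Space M] [ChartedSpace (E 4) M]
    [IsManifold (𝓡 4) ∞ M] [TopologicalSpace N] [T2Space N]
    [ChartedSpace (E 4) N] [IsManifold (𝓡 4) ∞ N] (ρ : Equiv.Perm (Sp 3)) (P : ℝ × Sp 3 → N),
    IsTorus ρ P → ∀ (f : M ≃ₜ N) (T : Set ℝ), NullH 4 (f '' KH.Bad 4 f) → volume T ≠ 0 →
    (∀ x, x ∉ KH.Bad 4 f → (rk 4 f x = 1 ∨ rk 4 f x = 2) → ∀ t ∈ T, ∀ u, f x ≠ P (t, u)) →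
    ∃ G : M ≃ₜ N, ∃ x₀ : M, ∀ x, x ≠ x₀ → LD 4 G x

end Pool.Agent.N550.RF
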